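import Mathlib
import Pool.Agent.Q22.DS.Circulant

/-!
# The derangement sum over roots of unity for even `n`

With `x_j = ζ ^ j` the product `∏ 1 / (1 - ζ ^ (j - τ j))` is `∏ x_j` times
`(-1) ^ n ∏ 1 / (x_j - x_{τ j})`. For distinct numbers `x_j` the sums of
`∏ 1 / (x_j - x_{τ j})` over all cyclic arrangements of at least three indices vanish, so that
only the products of `n / 2` transpositions contribute, and the unsigned sum is `(-1) ^ (n / 2)`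
times the signed sum. The latter is the determinant of a circulant matrix.
-/

namespace Pool.Agent.Results.MP_cc6741_nt.EvenDerangementSum

open Equiv Equiv.Perm Finset Pool.Agent.Q22.DS

open scoped Nat

/-- The set `D(n)` of the derangements of `n` letters. -/
def D (n : ℕ) : Finset (Perm (Fin n)) := univ.filter fun τ => ∀ j, τ j ≠ j

lemma sum_D (n : ℕ) (ζ : ℂ) (c : Perm (Fin n) → ℂ) :
    ∑ τ ∈ D n, c τ * ∏ j : Fin n, 1 / (1 - ζ ^ ((j : ℤ) - (τ j : ℤ))) =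
      ∑ τ : Perm (Fin n), c τ * ∏ j : Fin n, (1 - ζ ^ ((j : ℤ) - (τ j : ℤ)))⁻¹ := by
  unfold D
  rw [Finset.sum_filter]
  refine Finset.sum_congr rfl fun τ _ => ?_
  split_ifs with h
  · simp only [one_div]
  · push Not at h
    obtain ⟨j, hj⟩ := h
    rw [Finset.prod_eq_zero (mem_univ j), mul_zero]
    rw [hj, sub_self, zpow_zero, sub_self, inv_zero]

lemma prod_term {n : ℕ} {ζ : ℂ} (hζ0 : ζ ≠ 0) (τ : Perm (Fin n)) :
    ∏ j : Fin n, (1 - ζ ^ ((j : ℤ) - (τ j : ℤ)))⁻¹ =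
      ((∏ j : Fin n, ζ ^ (j : ℕ)) * (-1) ^ n) *
        ∏ j : Fin n, (ζ ^ (j : ℕ) - ζ ^ ((τ j : Fin n) : ℕ))⁻¹ := by
  have h1 : ∀ j : Fin n, (1 - ζ ^ ((j : ℤ) - (τ j : ℤ)))⁻¹ =
      ζ ^ ((τ j : Fin n) : ℕ) * ((-1) * (ζ ^ (j : ℕ) - ζ ^ ((τ j : Fin n) : ℕ))⁻¹) := by
    intro j
    have h2 : ζ ^ ((τ j : Fin n) : ℕ) ≠ 0 := pow_ne_zero _ hζ0
    have h3 : (1 - ζ ^ ((j : ℤ) - (τ j : ℤ))) =
        (ζ ^ ((τ j : Fin n) : ℕ))⁻¹ * (-(ζ ^ (j : ℕ) - ζ ^ ((τ j : Fin n) : ℕ))) := by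
      rw [zpow_sub₀ hζ0, zpow_natCast, zpow_natCast]
      field_simp
      ring
    rw [h3, mul_inv, inv_inv, inv_neg]
    ring
  simp_rw [h1]
  rw [Finset.prod_mul_distrib, Finset.prod_mul_distrib]
  rw [Equiv.prod_comp τ fun j : Fin n => ζ ^ (j : ℕ)]
  simp only [Finset.prod_const, Finset.card_univ, Fintype.card_fin]
  ring

lemma prod_even (m : ℕ) :
    (-1) ^ m * ∏ s : Fin (2 * m), ((((2 * m : ℕ) : ℂ) - 1) / 2 - (s : ℕ)) =
      (((2 * m - 1)‼ : ℕ) : ℂ) ^ 2 / 2 ^ (2 * m) := by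
  rw [Fin.prod_univ_eq_prod_range (fun s : ℕ => (((2 * m : ℕ) : ℂ) - 1) / 2 - (s : ℂ)) (2 * m)]
  induction m with
  | zero => simp
  | succ m ih =>
    rcases m with _ | m
    · norm_num [Finset.prod_range_succ]
    · have h1 : ∏ s ∈ range (2 * (m + 1 + 1)), ((((2 * (m + 1 + 1) : ℕ) : ℂ) - 1) / 2 - (s : ℂ)) =
          (((2 * (m + 1 + 1) : ℕ) : ℂ) - 1) / 2 * (-((((2 * (m + 1 + 1) : ℕ) : ℂ) - 1) / 2)) *
          ∏ s ∈ range (2 * (m + 1)), ((((2 * (m + 1) : ℕ) : ℂ) - 1) / 2 - (s : ℂ)) := by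
        rw [show 2 * (m + 1 + 1) = 2 * (m + 1) + 1 + 1 by ring, Finset.prod_range_succ',
          Finset.prod_range_succ]
        have h2 : ∀ s : ℕ, (((2 * (m + 1) + 1 + 1 : ℕ) : ℂ) - 1) / 2 - ((s + 1 : ℕ) : ℂ) =
            (((2 * (m + 1) : ℕ) : ℂ) - 1) / 2 - (s : ℂ) := by
          intro s; push_cast; ring
        simp_rw [h2]
        push_cast
        ring
      have h3 : (2 * (m + 1 + 1) - 1)‼ = (2 * (m + 1) + 1) * (2 * (m + 1) - 1)‼ := by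
        rw [show 2 * (m + 1 + 1) - 1 = (2 * (m + 1) - 1) + 2 by omega, Nat.doubleFactorial_add_two]
        rw [show 2 * (m + 1) - 1 + 2 = 2 * (m + 1) + 1 by omega]
      rw [h1, h3]
      push_cast at ih ⊢
      rw [show (2 : ℂ) ^ (2 * (m + 1 + 1)) = 4 * 2 ^ (2 * (m + 1)) by ring]
      have h4 : ((2 * ((m : ℂ) + 1) + 1) * (((2 * (m + 1) - 1)‼ : ℕ) : ℂ)) ^ 2 /
          (4 * 2 ^ (2 * (m + 1))) = (2 * ((m : ℂ) + 1) + 1) ^ 2 / 4 *
          ((((2 * (m + 1) - 1)‼ : ℕ) : ℂ) ^ 2 / 2 ^ (2 * (m + 1))) := by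
        ring
      rw [h4, ← ih]
      ring

lemma doubleFactorial_sq (m : ℕ) :
    (((2 * m - 1)‼ : ℕ) : ℂ) ^ 2 / 2 ^ (2 * m) =
      ((2 * m)! : ℂ) / 4 ^ (2 * m) * (((2 * m).choose m : ℕ) : ℂ) := by
  have h1 : (((2 * m - 1)‼ : ℕ) : ℂ) * (2 ^ m * (m ! : ℂ)) = ((2 * m)! : ℂ) := by
    rcases m with _ | m
    · simp
    · have h2 := Nat.factorial_eq_mul_doubleFactorial (2 * (m + 1) - 1)
      rw [show 2 * (m + 1) - 1 + 1 = 2 * (m + 1) by omega, Nat.doubleFactorial_two_mul] at h2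
      rw [h2]
      push_cast
      ring
  have h2 : (((2 * m).choose m : ℕ) : ℂ) * ((m ! : ℂ) * (m ! : ℂ)) = ((2 * m)! : ℂ) := by
    have h3 := Nat.choose_mul_factorial_mul_factorial (show m ≤ 2 * m by omega)
    rw [show 2 * m - m = m by omega] at h3
    rw [← h3]; push_cast; ring
  have hm : (m ! : ℂ) ≠ 0 := by exact_mod_cast Nat.factorial_ne_zero m
  have h4 : (((2 * m - 1)‼ : ℕ) : ℂ) = ((2 * m)! : ℂ) / (2 ^ m * (m ! : ℂ)) := by
    rw [eq_div_iff (mul_ne_zero (pow_ne_zero _ two_ne_zero) hm)]; exact h1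
  have h5 : (((2 * m).choose m : ℕ) : ℂ) = ((2 * m)! : ℂ) / ((m ! : ℂ) * (m ! : ℂ)) := by
    rw [eq_div_iff (mul_ne_zero hm hm)]; exact h2
  rw [h4, h5]
  have h6 : (4 : ℂ) ^ (2 * m) = 2 ^ (2 * m) * (2 ^ m * 2 ^ m) := by
    rw [show (4 : ℂ) = 2 * 2 by norm_num, mul_pow]; ring
  rw [h6]
  field_simp

/-- **The derangement sum.** For every even integer `n > 1` and every primitive `n`-th root of
unity `ζ`, the sum over the derangements `τ` of `n` letters of `∏ 1 / (1 - ζ ^ (j - τ j))` is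
`((n - 1)‼) ^ 2 / 2 ^ n = n! / 4 ^ n * (n choose n / 2)`. -/
theorem result (n : ℕ) (hn : 1 < n) (heven : Even n) (ζ : ℂ) (hζ : IsPrimitiveRoot ζ n) :
    ∑ τ ∈ D n, ∏ j : Fin n, 1 / (1 - ζ ^ ((j : ℤ) - (τ j : ℤ))) =
      (((n - 1)‼ : ℕ) : ℂ) ^ 2 / 2 ^ n ∧
    (((n - 1)‼ : ℕ) : ℂ) ^ 2 / 2 ^ n = (n ! : ℂ) / 4 ^ n * ((n.choose (n / 2) : ℕ) : ℂ) := by
  have hζ0 : ζ ≠ 0 := hζ.ne_zero (by omega)
  have hinj : Function.Injective fun j : Fin n => ζ ^ (j : ℕ) := by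
    intro a b hab
    exact Fin.ext (hζ.pow_inj a.2 b.2 hab)
  have h1 := unsigned_eq_signed n (Fin n) (fun j => ζ ^ (j : ℕ)) hinj (by simp)
  have h2 := sum_D n ζ fun _ => 1
  simp only [one_mul] at h2
  have h3 : (C n ζ).det = ∑ τ : Perm (Fin n), ((sign τ : ℤ) : ℂ) *
      ∏ j : Fin n, (1 - ζ ^ ((j : ℤ) - (τ j : ℤ)))⁻¹ := by
    rw [← Matrix.det_transpose, Matrix.det_apply']
    rfl
  rw [det_C (by omega) hζ] at h3
  obtain ⟨m, hm⟩ := heven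
  have hm' : n = 2 * m := by omega
  have h4 : ∑ τ ∈ D n, ∏ j : Fin n, 1 / (1 - ζ ^ ((j : ℤ) - (τ j : ℤ))) =
      (-1) ^ (n / 2) * ∏ s : Fin n, (((n : ℂ) - 1) / 2 - (s : ℕ)) := by
    rw [h2, h3]
    simp_rw [prod_term hζ0]
    rw [← Finset.mul_sum, h1]
    rw [Finset.mul_sum, Finset.mul_sum, Finset.mul_sum]
    refine Finset.sum_congr rfl fun τ _ => ?_
    ring
  have h5 : n / 2 = m := by omega
  refine ⟨?_, ?_⟩
  · rw [h4, h5]
    subst hm'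
    exact prod_even m
  · rw [h5]
    subst hm'
    exact doubleFactorial_sq m

end Pool.Agent.Results.MP_cc6741_nt.EvenDerangementSum
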